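import Mathlib

/-! Rational boxes in `K → ℝ`, independent systems of boxes, and a closing-off dichotomy. -/

namespace Pool.Agent.MP_b07c92_gt

open Set Topology
open scoped Classical

variable {K : Type*}

/-- Closing off under countably-valued finitary operations. -/
theorem closing_off {α : Type*} (R : Finset α → Set α) (hR : ∀ s, (R s).Countable) :
    ∃ A : Set α, A.Countable ∧ ∀ s : Finset α, (↑s : Set α) ⊆ A → R s ⊆ A := by
  let F : Set α → Set α := fun B => B ∪ ⋃ s ∈ {s : Finset α | (↑s : Set α) ⊆ B}, R s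
  have hF : ∀ B : Set α, B.Countable → (F B).Countable := by
    intro B hB
    refine hB.union (Set.Countable.biUnion ?_ fun s _ => hR s)
    have := Set.countable_ofPred_finite_subset hB
    refine (this.preimage_of_injOn (f := fun s : Finset α => (↑s : Set α))
      (Finset.coe_injective.injOn)).mono ?_
    intro s hs
    exact ⟨s.finite_toSet, hs⟩
  let A : ℕ → Set α := fun n => F^[n] ∅
  have hA : ∀ n, A (n + 1) = F (A n) := fun n => Function.iterate_succ_apply' F n ∅
  have hc : ∀ n, (A n).Countable := by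
    intro n
    induction n with
    | zero => exact countable_empty
    | succ n ih => rw [hA]; exact hF _ ih
  have hm : Monotone A := monotone_nat_of_le_succ fun n => by
    rw [hA]; exact subset_union_left
  refine ⟨⋃ n, A n, countable_iUnion hc, fun s hs => ?_⟩
  obtain ⟨n, hn⟩ : ∃ n, (↑s : Set α) ⊆ A n := by
    have hd : Directed (· ⊆ ·) A := hm.directed_le
    exact hd.exists_mem_subset_of_finset_subset_biUnion hs
  refine Subset.trans ?_ (subset_iUnion A (n + 1))
  rw [hA]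
  intro x hx
  exact Or.inr (mem_iUnion₂.2 ⟨s, hn, hx⟩)

/-- A rational box: finitely many constraints `a < f x < b`. -/
abbrev Box (K : Type*) := Finset (K × ℚ × ℚ)

/-- `f` lies in the box `B`. -/
def InBox (B : Box K) (f : K → ℝ) : Prop :=
  ∀ t ∈ B, (t.2.1 : ℝ) < f t.1 ∧ f t.1 < (t.2.2 : ℝ)

/-- The coordinates constrained by a box. -/
def supp (B : Box K) : Set K := Prod.fst '' (B : Set (K × ℚ × ℚ))

/-- The box is nonempty. -/
def NE (B : Box K) : Prop := ∃ g, InBox B g

/-- The constraints of a box on coordinates in `A`. -/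
noncomputable def res (A : Set K) (B : Box K) : Box K := B.filter fun t => t.1 ∈ A

theorem inBox_union {B C : Box K} {f : K → ℝ} : InBox (B ∪ C) f ↔ InBox B f ∧ InBox C f := by
  simp only [InBox, Finset.mem_union, or_imp, forall_and]
  tauto

theorem InBox.mono {B C : Box K} {f : K → ℝ} (h : InBox C f) (hBC : B ⊆ C) : InBox B f :=
  fun t ht => h t (hBC ht)

theorem InBox.congr {B : Box K} {f g : K → ℝ} (h : InBox B f) (hfg : ∀ x ∈ supp B, g x = f x) :
    InBox B g := fun t ht => by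
  rw [hfg t.1 ⟨t, ht, rfl⟩]; exact h t ht

theorem supp_finite (B : Box K) : (supp B).Finite := B.finite_toSet.image _

theorem supp_union (B C : Box K) : supp (B ∪ C) = supp B ∪ supp C := by
  simp [supp, image_union]

theorem mem_res {A : Set K} {B : Box K} {t : K × ℚ × ℚ} : t ∈ res A B ↔ t ∈ B ∧ t.1 ∈ A := by
  simp only [res, Finset.mem_filter]

theorem supp_res (A : Set K) (B : Box K) : supp (res A B) ⊆ A := by
  rintro _ ⟨t, ht, rfl⟩
  exact (mem_res.1 ht).2

theorem res_subset (A : Set K) (B : Box K) : res A B ⊆ B := Finset.filter_subset _ _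

theorem subset_res_union (A : Set K) (B : Box K) : B ⊆ res A B ∪ res Aᶜ B := by
  intro t ht
  by_cases h : t.1 ∈ A
  · exact Finset.mem_union_left _ (mem_res.2 ⟨ht, h⟩)
  · exact Finset.mem_union_right _ (mem_res.2 ⟨ht, h⟩)

theorem NE.union {B C : Box K} (hB : NE B) (hC : NE C) (h : Disjoint (supp B) (supp C)) :
    NE (B ∪ C) := by
  obtain ⟨f, hf⟩ := hB
  obtain ⟨g, hg⟩ := hC
  refine ⟨fun x => if x ∈ supp B then f x else g x, inBox_union.2 ⟨hf.congr fun x hx => ?_,
    hg.congr fun x hx => ?_⟩⟩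
  · rw [if_pos hx]
  · rw [if_neg (disjoint_right.1 h hx)]

theorem countable_boxes {A : Set K} (hA : A.Countable) : {B : Box K | supp B ⊆ A}.Countable := by
  have h1 : (A ×ˢ (univ : Set (ℚ × ℚ))).Countable := hA.prod countable_univ
  have := Set.countable_ofPred_finite_subset h1
  refine (this.preimage_of_injOn (f := fun s : Box K => (↑s : Set (K × ℚ × ℚ)))
    (Finset.coe_injective.injOn)).mono ?_
  intro B hB
  exact ⟨B.finite_toSet, fun t ht => ⟨hB ⟨t, ht, rfl⟩, mem_univ _⟩⟩

/-- An independent system of labelled pairs of boxes over the root `W`. -/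
structure Sys {ι : Type*} (T : ι → Box K → Box K → Prop) (W : Box K)
    (S : Set (ι × Box K × Box K)) : Prop where
  good : ∀ p ∈ S, T p.1 (W ∪ p.2.1) (W ∪ p.2.2) ∧ NE (W ∪ p.2.1) ∧ NE (W ∪ p.2.2) ∧
    Disjoint (supp W) (supp (p.2.1 ∪ p.2.2))
  pair : S.Pairwise fun p q => Disjoint (supp (p.2.1 ∪ p.2.2)) (supp (q.2.1 ∪ q.2.2))

theorem exists_maximal_sys {ι : Type*} (T : ι → Box K → Box K → Prop) (W : Box K) :
    ∃ S, Maximal (Sys T W) S := by
  refine zorn_subset {S | Sys T W S} fun c hc hch => ⟨⋃₀ c, ⟨?_, ?_⟩, fun s hs => subset_sUnion_of_mem hs⟩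
  · rintro p ⟨s, hs, hp⟩
    exact (hc hs).good p hp
  · rintro p ⟨s, hs, hp⟩ q ⟨t, ht, hq⟩ hpq
    rcases hch.total hs ht with h | h
    · exact (hc ht).pair (h hp) hq hpq
    · exact (hc hs).pair hp (h hq) hpq

/-- Either there is an uncountable independent system, or countably many coordinates already
separate all the labelled pairs. -/
theorem dichotomy {ι : Type*} (T : ι → Box K → Box K → Prop)
    (mono : ∀ i B B' C C', T i B B' → B ⊆ C → B' ⊆ C' → T i C C')
    (disj : ∀ i B, T i B B → ¬ NE B) :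
    (∃ W S, Sys T W S ∧ ¬ S.Countable) ∨ ∃ A : Set K, A.Countable ∧
      ∀ i B B', T i B B' → NE B → NE B' → ¬ NE (res A B ∪ res A B') := by
  by_cases h : ∃ W S, Sys T W S ∧ ¬ S.Countable
  · exact Or.inl h
  right
  push Not at h
  choose S hS using exists_maximal_sys T
  have hSc : ∀ W, (S W).Countable := fun W => h W _ (hS W).prop
  obtain ⟨A, hA, hcl⟩ := closing_off (fun F : Finset K =>
      ⋃ W ∈ {W : Box K | supp W ⊆ F}, ⋃ p ∈ S W, supp (p.2.1 ∪ p.2.2)) fun F =>
    (countable_boxes F.countable_toSet).biUnion fun W _ =>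
      (hSc W).biUnion fun p _ => (supp_finite _).countable
  refine ⟨A, hA, fun i B B' hT hB hB' hW => ?_⟩
  set W := res A B ∪ res A B' with hWdef
  have hWA : supp W ⊆ A := by
    rw [hWdef, supp_union]; exact union_subset (supp_res _ _) (supp_res _ _)
  have hin : ∀ p ∈ S W, supp (p.2.1 ∪ p.2.2) ⊆ A := by
    intro p hp
    refine Subset.trans ?_ (hcl (supp_finite W).toFinset (by simpa using hWA))
    intro x hx
    simp only [mem_iUnion]
    exact ⟨W, by simp, p, hp, hx⟩
  set p : ι × Box K × Box K := (i, res Aᶜ B, res Aᶜ B') with hp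
  have hout : supp (p.2.1 ∪ p.2.2) ⊆ Aᶜ := by
    rw [supp_union]; exact union_subset (supp_res _ _) (supp_res _ _)
  have hd : ∀ C : Box K, Disjoint (supp W) (supp (res Aᶜ C)) := fun C =>
    disjoint_compl_right.mono hWA (supp_res _ _)
  have hT' : T i (W ∪ res Aᶜ B) (W ∪ res Aᶜ B') := by
    refine mono i B B' _ _ hT ((subset_res_union A B).trans ?_) ((subset_res_union A B').trans ?_)
    · exact Finset.union_subset_union Finset.subset_union_left subset_rfl
    · exact Finset.union_subset_union Finset.subset_union_right subset_rfl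
  have hne : ∀ C : Box K, NE C → NE (W ∪ res Aᶜ C) := fun C ⟨g, hg⟩ =>
    hW.union ⟨g, hg.mono (res_subset _ _)⟩ (hd C)
  have hsys : Sys T W (insert p (S W)) := by
    refine ⟨?_, ?_⟩
    · rintro q (rfl | hq)
      · exact ⟨hT', hne B hB, hne B' hB', disjoint_compl_right.mono hWA hout⟩
      · exact (hS W).prop.good q hq
    · refine (hS W).prop.pair.insert fun q hq _ => ⟨?_, ?_⟩
      · exact disjoint_compl_left.mono hout (hin q hq)
      · exact disjoint_compl_right.mono (hin q hq) hout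
  have hpS : p ∈ S W := (hS W).le_of_ge hsys (subset_insert _ _) (mem_insert _ _)
  have hempty : supp (p.2.1 ∪ p.2.2) = ∅ :=
    eq_empty_of_subset_empty fun x hx => hout hx (hin p hpS hx)
  have h0 : p.2.1 ∪ p.2.2 = ∅ := by
    simpa [supp] using hempty
  obtain ⟨h1, h2⟩ := Finset.union_eq_empty.1 h0
  simp only [hp] at h1 h2
  rw [h1, h2, Finset.union_empty] at hT'
  exact disj i W hT' hW

/-- All prescribed sides of an independent system are met by one function. -/
theorem Sys.realize {ι : Type*} {T : ι → Box K → Box K → Prop} {W : Box K}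
    {S : Set (ι × Box K × Box K)} (hS : Sys T W S) (hW : NE W) (s : ι × Box K × Box K → Prop) :
    ∃ g, InBox W g ∧ ∀ p ∈ S, InBox (if s p then p.2.2 else p.2.1) g := by
  obtain ⟨g₀, hg₀⟩ := hW
  have h1 : ∀ p ∈ S, ∃ g, InBox (if s p then p.2.2 else p.2.1) g := by
    intro p hp
    obtain ⟨-, ⟨g, hg⟩, ⟨g', hg'⟩, -⟩ := hS.good p hp
    split_ifs
    · exact ⟨g', (inBox_union.1 hg').2⟩
    · exact ⟨g, (inBox_union.1 hg).2⟩
  choose! G hG using h1
  refine ⟨fun x => if h : ∃ p ∈ S, x ∈ supp (p.2.1 ∪ p.2.2) then G h.choose x else g₀ x,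
    hg₀.congr fun x hx => ?_, fun p hp => (hG p hp).congr fun x hx => ?_⟩
  · rw [dif_neg]
    rintro ⟨p, hp, hxp⟩
    exact disjoint_left.1 (hS.good p hp).2.2.2 hx hxp
  · have hxp : x ∈ supp (p.2.1 ∪ p.2.2) := by
      rw [supp_union]
      split_ifs at hx
      · exact Or.inr hx
      · exact Or.inl hx
    have h : ∃ p ∈ S, x ∈ supp (p.2.1 ∪ p.2.2) := ⟨p, hp, hxp⟩
    rw [dif_pos h]
    have : h.choose = p := by
      by_contra hne
      exact disjoint_left.1 (hS.pair h.choose_spec.1 hp hne) h.choose_spec.2 hxp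
    rw [this]

/-- `C_p(K)`: continuous real functions with the topology of pointwise convergence. -/
abbrev Cp (K : Type*) [TopologicalSpace K] := {f : K → ℝ // Continuous f}

section Top

variable [TopologicalSpace K]

theorem exists_cont_eqOn [NormalSpace K] [T1Space K] (g : K → ℝ) {F : Set K} (hF : F.Finite) :
    ∃ f : Cp K, ∀ x ∈ F, f.1 x = g x := by
  have := hF.to_subtype
  obtain ⟨f, hf⟩ := ContinuousMap.exists_restrict_eq hF.isClosed
    (⟨fun x : F => g x, continuous_of_discreteTopology⟩ : C(F, ℝ))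
  exact ⟨⟨f, f.continuous⟩, fun x hx => congrArg (fun h : C(F, ℝ) => h ⟨x, hx⟩) hf⟩

theorem NE.exists_cont [NormalSpace K] [T1Space K] {B : Box K} (h : NE B) :
    ∃ f : Cp K, InBox B f.1 := by
  obtain ⟨g, hg⟩ := h
  obtain ⟨f, hf⟩ := exists_cont_eqOn g (supp_finite B)
  exact ⟨f, hg.congr hf⟩

theorem exists_box {V : Set (Cp K)} (hV : IsOpen V) {f : Cp K} (hf : f ∈ V) :
    ∃ B : Box K, InBox B f.1 ∧ ∀ g : Cp K, InBox B g.1 → g ∈ V := by
  obtain ⟨V', hV', rfl⟩ := isOpen_induced_iff.1 hV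
  obtain ⟨I, u, hu, hI⟩ := isOpen_pi_iff.1 hV' f.1 hf
  have h1 : ∀ x ∈ I, ∃ a b : ℚ, (a : ℝ) < f.1 x ∧ f.1 x < b ∧ Ioo (a : ℝ) b ⊆ u x := by
    intro x hx
    obtain ⟨l, r, ⟨hl, hr⟩, hlr⟩ := mem_nhds_iff_exists_Ioo_subset.1 ((hu x hx).1.mem_nhds (hu x hx).2)
    obtain ⟨a, ha1, ha2⟩ := exists_rat_btwn hl
    obtain ⟨b, hb1, hb2⟩ := exists_rat_btwn hr
    exact ⟨a, b, ha2, hb1, (Ioo_subset_Ioo ha1.le hb2.le).trans hlr⟩
  choose! a b hab using h1
  refine ⟨I.image fun x => (x, a x, b x), ?_, fun g hg => hI fun x hx => ?_⟩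
  · intro t ht
    obtain ⟨x, hx, rfl⟩ := Finset.mem_image.1 ht
    exact ⟨(hab x hx).1, (hab x hx).2.1⟩
  · exact (hab x hx).2.2 (hg _ (Finset.mem_image_of_mem _ hx))

/-- `ψ i < a` on the first box and `b < ψ i` on the second. -/
def Sep {ι : Type*} (ψ : ι → Cp K → ℝ) (a b : ℝ) (i : ι) (B B' : Box K) : Prop :=
  (∀ f : Cp K, InBox B f.1 → ψ i f < a) ∧ ∀ f : Cp K, InBox B' f.1 → b < ψ i f

theorem sep_dichotomy [NormalSpace K] [T1Space K] {ι : Type*} (ψ : ι → Cp K → ℝ)
    (hψ : ∀ i, Continuous (ψ i)) {a b : ℝ} (hab : a ≤ b) :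
    (∃ W S, Sys (Sep ψ a b) W S ∧ ¬ S.Countable) ∨ ∃ A : Set K, A.Countable ∧
      ∀ i f, b < ψ i f → ∃ W : Box K, supp W ⊆ A ∧ InBox W f.1 ∧
        ∀ g : Cp K, InBox W g.1 → a ≤ ψ i g := by
  refine (dichotomy (Sep ψ a b) ?_ ?_).imp_right ?_
  · intro i B B' C C' h hB hB'
    exact ⟨fun f hf => h.1 f (hf.mono hB), fun f hf => h.2 f (hf.mono hB')⟩
  · intro i B h hB
    obtain ⟨f, hf⟩ := hB.exists_cont
    exact absurd ((h.1 f hf).trans_le hab) (h.2 f hf).not_gt
  · rintro ⟨A, hA, h⟩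
    refine ⟨A, hA, fun i f hf => ?_⟩
    obtain ⟨B', hB', hB'V⟩ := exists_box (isOpen_lt continuous_const (hψ i)) hf
    refine ⟨res A B', supp_res _ _, hB'.mono (res_subset _ _), fun g hg => ?_⟩
    by_contra hlt
    obtain ⟨B, hB, hBV⟩ := exists_box (isOpen_lt (hψ i) continuous_const) (not_le.1 hlt)
    exact h i B B' ⟨hBV, hB'V⟩ ⟨_, hB⟩ ⟨_, hB'⟩
      ⟨g.1, inBox_union.2 ⟨hB.mono (res_subset _ _), hg⟩⟩

/-- A continuous real function on `C_p(K)` is controlled by countably many coordinates. -/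
theorem exists_countable_control [NormalSpace K] [T1Space K] (ψ : Cp K → ℝ) (hψ : Continuous ψ) :
    ∃ A : Set K, A.Countable ∧ ∀ f, 1 ≤ ψ f → ∃ W : Box K, supp W ⊆ A ∧ InBox W f.1 ∧
      ∀ g : Cp K, InBox W g.1 → 0 < ψ g := by
  rcases sep_dichotomy (fun _ : Unit => ψ) (fun _ => hψ) (a := 1 / 3) (b := 2 / 3) (by norm_num)
    with ⟨W, S, hS, hc⟩ | ⟨A, hA, h⟩
  · exfalso
    obtain ⟨p, hp, q, hq, hpq⟩ : S.Nontrivial := by
      by_contra hn
      exact hc (not_nontrivial_iff.1 hn).countable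
    obtain ⟨g₀, hg₀⟩ := (hS.good p hp).2.1
    obtain ⟨g, hgW, hg⟩ := hS.realize ⟨g₀, (inBox_union.1 hg₀).1⟩ fun r => r = q
    have h1 := hg p hp
    have h2 := hg q hq
    rw [if_neg hpq] at h1
    rw [if_pos rfl] at h2
    obtain ⟨f, hf⟩ := NE.exists_cont (B := (W ∪ p.2.1) ∪ (W ∪ q.2.2))
      ⟨g, inBox_union.2 ⟨inBox_union.2 ⟨hgW, h1⟩, inBox_union.2 ⟨hgW, h2⟩⟩⟩
    have h3 := (hS.good p hp).1.1 f (inBox_union.1 hf).1
    have h4 := (hS.good q hq).1.2 f (inBox_union.1 hf).2
    linarith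
  · refine ⟨A, hA, fun f hf => ?_⟩
    obtain ⟨W, h1, h2, h3⟩ := h () f (by linarith)
    exact ⟨W, h1, h2, fun g hg => by linarith [h3 g hg]⟩

/-- A non-metrizable compact image of `C_p(K)` carries uncountably many independent
continuous functions. -/
theorem exists_independent [NormalSpace K] [T1Space K] {Y : Type*} [TopologicalSpace Y]
    [CompactSpace Y] [T2Space Y] (φ : Cp K → Y) (hφ : Continuous φ) (hs : Function.Surjective φ)
    (hY : ¬ TopologicalSpace.MetrizableSpace Y) :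
    ∃ (S : Set (C(Y, ℝ) × Box K × Box K)), ¬ S.Countable ∧
      ∀ s : C(Y, ℝ) × Box K × Box K → Prop, ∃ f : Cp K,
        ∀ p ∈ S, (s p → 1 ≤ p.1 (φ f)) ∧ (¬ s p → p.1 (φ f) ≤ 0) := by
  rcases sep_dichotomy (fun (h : C(Y, ℝ)) f => h (φ f)) (fun h => h.continuous.comp hφ)
    (a := 0) (b := 1) zero_le_one with ⟨W, S, hS, hc⟩ | ⟨A, hA, h⟩
  · refine ⟨S, hc, fun s => ?_⟩
    obtain ⟨p₀, hp₀⟩ : S.Nonempty := by
      by_contra hn
      exact hc (not_nonempty_iff_eq_empty.1 hn ▸ countable_empty)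
    obtain ⟨g₀, hg₀⟩ := (hS.good p₀ hp₀).2.1
    obtain ⟨g, hgW, hg⟩ := hS.realize ⟨g₀, (inBox_union.1 hg₀).1⟩ s
    let t : S → Set Y := fun p => if s p.1 then {y | 1 ≤ p.1.1 y} else {y | p.1.1 y ≤ 0}
    have htc : ∀ p, IsClosed (t p) := fun p => by
      simp only [t]
      split_ifs
      · exact isClosed_le continuous_const p.1.1.continuous
      · exact isClosed_le p.1.1.continuous continuous_const
    obtain ⟨y, -, hy⟩ := isCompact_univ.inter_iInter_nonempty t htc fun u => by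
      obtain ⟨f, hf⟩ := exists_cont_eqOn g (F := supp W ∪ ⋃ p ∈ u, supp (p.1.2.1 ∪ p.1.2.2))
        ((supp_finite W).union (u.finite_toSet.biUnion fun p _ => supp_finite _))
      refine ⟨φ f, mem_univ _, mem_iInter₂.2 fun p hp => ?_⟩
      have hfW : InBox W f.1 := hgW.congr fun x hx => hf x (Or.inl hx)
      have hp' := hg p.1 p.2
      have hsub : ∀ x ∈ supp (p.1.2.1 ∪ p.1.2.2), f.1 x = g x := fun x hx =>
        hf x (Or.inr (mem_iUnion₂.2 ⟨p, hp, hx⟩))
      rw [supp_union] at hsub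
      simp only [t]
      split_ifs at hp' ⊢
      · exact ((hS.good p.1 p.2).1.2 f
          (inBox_union.2 ⟨hfW, hp'.congr fun x hx => hsub x (Or.inr hx)⟩)).le
      · exact ((hS.good p.1 p.2).1.1 f
          (inBox_union.2 ⟨hfW, hp'.congr fun x hx => hsub x (Or.inl hx)⟩)).le
    obtain ⟨f, rfl⟩ := hs y
    refine ⟨f, fun p hp => ?_⟩
    have := mem_iInter.1 hy ⟨p, hp⟩
    simp only [t] at this
    constructor
    · intro hsp; rwa [if_pos hsp] at this
    · intro hsp; rwa [if_neg hsp] at this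
  · exfalso
    apply hY
    let N : Box K → Set Y := fun W => closure (φ '' {f | InBox W f.1})
    let P := {q : Box K × Box K // supp q.1 ⊆ A ∧ supp q.2 ⊆ A ∧ Disjoint (N q.1) (N q.2)}
    have hP : Countable P := by
      have : {q : Box K × Box K | supp q.1 ⊆ A ∧ supp q.2 ⊆ A ∧ Disjoint (N q.1) (N q.2)}.Countable :=
        ((countable_boxes hA).prod (countable_boxes hA)).mono fun q hq =>
          Set.mem_prod.2 ⟨hq.1, hq.2.1⟩
      exact this.to_subtype
    have hu : ∀ q : P, ∃ u : C(Y, ℝ), EqOn u 0 (N q.1.1) ∧ EqOn u 1 (N q.1.2) := fun q => by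
      obtain ⟨u, h0, h1, -⟩ := exists_continuous_zero_one_of_isClosed
        (s := N q.1.1) (t := N q.1.2) isClosed_closure isClosed_closure q.2.2.2
      exact ⟨u, h0, h1⟩
    choose u hu0 hu1 using hu
    have hemb : IsEmbedding fun (y : Y) (q : P) => u q y := by
      refine (Continuous.isClosedEmbedding (continuous_pi fun q => (u q).continuous) ?_).isEmbedding
      intro y y' hyy
      by_contra hne
      obtain ⟨v, hv0, hv1, -⟩ := exists_continuous_zero_one_of_isClosed
        (isClosed_singleton (x := y')) (isClosed_singleton (x := y))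
        (disjoint_singleton.2 (Ne.symm hne))
      have hy : v y = 1 := hv1 rfl
      have hy' : v y' = 0 := hv0 rfl
      obtain ⟨f, rfl⟩ := hs y
      obtain ⟨f', rfl⟩ := hs y'
      obtain ⟨W, hWA, hWf, hW⟩ := h ⟨fun z => 5 * v z - 3, by fun_prop⟩ f
        (by simp only [ContinuousMap.coe_mk, hy]; norm_num)
      obtain ⟨W', hWA', hWf', hW'⟩ := h ⟨fun z => 2 - 5 * v z, by fun_prop⟩ f'
        (by simp only [ContinuousMap.coe_mk, hy']; norm_num)
      have h1 : N W ⊆ {z | 0 ≤ 5 * v z - 3} := by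
        refine closure_minimal ?_ (isClosed_le continuous_const (by fun_prop))
        rintro _ ⟨g, hg, rfl⟩
        exact hW g hg
      have h2 : N W' ⊆ {z | 0 ≤ 2 - 5 * v z} := by
        refine closure_minimal ?_ (isClosed_le continuous_const (by fun_prop))
        rintro _ ⟨g, hg, rfl⟩
        exact hW' g hg
      have hd : Disjoint (N W) (N W') := disjoint_left.2 fun z hz hz' => by
        have h3 := h1 hz
        have h4 := h2 hz'
        simp only [mem_ofPred_eq] at h3 h4
        linarith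
      let q : P := ⟨(W, W'), hWA, hWA', hd⟩
      have h5 := congrFun hyy q
      have h6 := hu0 q (subset_closure ⟨f, hWf, rfl⟩)
      have h7 := hu1 q (subset_closure ⟨f', hWf', rfl⟩)
      simp only [Pi.zero_apply, Pi.one_apply] at h5 h6 h7
      rw [h6, h7] at h5
      exact zero_ne_one h5
    exact hemb.metrizableSpace

end Top

end Pool.Agent.MP_b07c92_gt
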