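import Pool.Agent.MP_b07c92_gt.Boxes

/-! Scattered compact spaces: rank functions and countable retraction-like maps. -/

namespace Pool.Agent.MP_b07c92_gt

open Set Topology Cardinal
open scoped Classical

universe u

variable {K : Type u} [TopologicalSpace K]

/-- `x` has Cantor-Bendixson type rank at most `α`. -/
inductive Rk : K → Ordinal.{u} → Prop
  | mk (x : K) (α : Ordinal.{u}) (V : Set K) (hV : IsOpen V) (hx : x ∈ V) (β : K → Ordinal.{u})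
      (hβ : ∀ y ∈ V, y ≠ x → β y < α) (h : ∀ y, y ∈ V → y ≠ x → Rk y (β y)) : Rk x α

theorem exists_rank
    (hsc : ∀ A : Set K, A.Nonempty → ∃ x ∈ A, ∃ V, IsOpen V ∧ V ∩ A = {x}) :
    ∃ (rk : K → Ordinal.{u}) (V : K → Set K), ∀ x, IsOpen (V x) ∧ x ∈ V x ∧
      ∀ y ∈ V x, y ≠ x → rk y < rk x := by
  have hex : ∀ x : K, ∃ α, Rk x α := by
    by_contra hcon
    obtain ⟨p, hp, V, hV, hVA⟩ := hsc {x | ¬ ∃ α, Rk x α} (by
      push Not at hcon
      obtain ⟨x, hx⟩ := hcon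
      exact ⟨x, fun ⟨α, hα⟩ => hx α hα⟩)
    have hpV : p ∈ V := by
      have : p ∈ V ∩ {x | ¬ ∃ α, Rk x α} := by rw [hVA]; rfl
      exact this.1
    have h1 : ∀ y, y ∈ V → y ≠ p → ∃ α, Rk y α := by
      intro y hy hyp
      by_contra hn
      have : y ∈ V ∩ {x | ¬ ∃ α, Rk x α} := ⟨hy, hn⟩
      rw [hVA] at this
      exact hyp this
    choose! β hβ using h1
    refine hp ⟨⨆ y, Order.succ (β y), Rk.mk p _ V hV hpV β (fun y _ _ => ?_) hβ⟩
    exact (Order.lt_succ _).trans_le (Ordinal.le_iSup (fun y => Order.succ (β y)) y)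
  let rk : K → Ordinal.{u} := fun x => sInf {α | Rk x α}
  have hrk : ∀ x, Rk x (rk x) := fun x => csInf_mem (hex x)
  have hle : ∀ x α, Rk x α → rk x ≤ α := fun x α h => csInf_le' h
  have : ∀ x, ∃ V : Set K, IsOpen V ∧ x ∈ V ∧ ∀ y ∈ V, y ≠ x → rk y < rk x := by
    intro x
    have key : ∀ α, Rk x α → ∃ V : Set K, IsOpen V ∧ x ∈ V ∧ ∀ y ∈ V, y ≠ x → rk y < α := by
      intro α h
      cases h with
      | mk _ _ V hV hx β hβ h =>
        exact ⟨V, hV, hx, fun y hy hyx => (hle y _ (h y hy hyx)).trans_lt (hβ y hy hyx)⟩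
    exact key _ (hrk x)
  choose V hV using this
  exact ⟨rk, V, hV⟩

/-- On a set `S` whose `G_δ`-closure is indexed injectively by `ω₁`, every continuous function
factors through one of `ω₁` many maps with countable range. -/
theorem exists_retractions [CompactSpace K] [T2Space K]
    (hsc : ∀ A : Set K, A.Nonempty → ∃ x ∈ A, ∃ V, IsOpen V ∧ V ∩ A = {x})
    {Ω : Type*} [LinearOrder Ω] [WellFoundedLT Ω] [Uncountable Ω]
    (hΩ : ∀ δ : Ω, (Iio δ).Countable) (S Z : Set K) (j : K → Ω) (hj : InjOn j Z)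
    (hZ : ∀ z ∉ Z, ∃ G, IsGδ G ∧ z ∈ G ∧ Disjoint G S) :
    ∃ (T : Ω → Set K) (ρ : Ω → K → K), (∀ δ, (T δ).Countable) ∧ (∀ δ s, ρ δ s ∈ T δ) ∧
      ∀ f : Cp K, ∃ δ, ∀ s ∈ S, f.1 (ρ δ s) = f.1 s := by
  obtain ⟨rk, V, hV⟩ := exists_rank hsc
  have hU : ∀ x : K, ∃ U ∈ 𝓝 x, IsClosed U ∧ U ⊆ V x := fun x =>
    exists_mem_nhds_isClosed_subset ((hV x).1.mem_nhds (hV x).2.1)
  choose U hUn hUc hUV using hU
  have hcov : ∀ F : Set K, IsClosed F → ∃ t : Finset K, (∀ x ∈ t, x ∈ F) ∧ F ⊆ ⋃ x ∈ t, U x :=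
    fun F hF => hF.isCompact.elim_nhds_subcover U fun x _ => hUn x
  choose! cov hcov1 hcov2 using hcov
  have hmin : ∀ B : Set K, B.Nonempty → ∃ z ∈ B, ∀ w ∈ B, ¬ rk w < rk z := fun B hB =>
    (InvImage.wf rk wellFounded_lt).has_min B hB
  let T : Ω → Set K := fun δ => ↑(cov univ) ∪ (Z ∩ j ⁻¹' Iio δ)
  have hne : ∀ δ s, {z | z ∈ T δ ∧ s ∈ U z}.Nonempty := by
    intro δ s
    obtain ⟨z, hz, hs⟩ := mem_iUnion₂.1 (hcov2 univ isClosed_univ (mem_univ s))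
    exact ⟨z, Or.inl hz, hs⟩
  choose ρ hρ hρmin using fun δ s => hmin _ (hne δ s)
  have hcount : ∀ D : Set Ω, D.Countable → (Z ∩ j ⁻¹' D).Countable := fun D hD =>
    Set.countable_of_injective_of_countable_image (hj.mono inter_subset_left)
      (hD.mono (by rintro _ ⟨z, hz, rfl⟩; exact hz.2))
  have hIic : ∀ δ : Ω, (Iic δ).Countable := fun δ => by
    rw [← Iio_union_right]; exact (hΩ δ).union (countable_singleton δ)
  refine ⟨T, ρ, fun δ => (cov univ).countable_toSet.union (hcount _ (hΩ δ)),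
    fun δ s => (hρ δ s).1, fun f => ?_⟩
  have hG : ∀ z ∉ Z, ∃ G : ℕ → Set K, (∀ n, IsOpen (G n)) ∧ (∀ n, z ∈ G n) ∧
      ∀ s ∈ S, ∃ n, s ∉ G n := by
    intro z hz
    obtain ⟨G, hG, hzG, hd⟩ := hZ z hz
    obtain ⟨G', hG', rfl⟩ := hG.eq_iInter_nat
    refine ⟨G', hG', mem_iInter.1 hzG, fun s hs => ?_⟩
    simpa using disjoint_right.1 hd hs
  choose! G hGo hGz hGs using hG
  let E : K → ℕ → Set K := fun z n => U z ∩ {w | 1 / ((n : ℝ) + 1) ≤ |f.1 w - f.1 z|}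
  have hEc : ∀ z n, IsClosed (E z n) := fun z n =>
    (hUc z).inter (isClosed_le continuous_const (f.2.sub continuous_const).abs)
  let c : K → Set K := fun z =>
    (⋃ n, ↑(cov (E z n))) ∪ (⋃ n, ↑(cov (U z \ G z n))) ∪ (Z ∩ j ⁻¹' Iic (j z))
  obtain ⟨A, hA, hcl⟩ := closing_off (fun F : Finset K => ↑(cov univ) ∪ ⋃ z ∈ F, c z) fun F =>
    (cov univ).countable_toSet.union (F.countable_toSet.biUnion fun z _ =>
      ((countable_iUnion fun n => Finset.countable_toSet _).union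
        (countable_iUnion fun n => Finset.countable_toSet _)).union (hcount _ (hIic _)))
  have hA0 : (↑(cov univ) : Set K) ⊆ A := subset_union_left.trans (hcl ∅ (by simp))
  have hAc : ∀ z ∈ A, c z ⊆ A := fun z hz w hw =>
    hcl {z} (by simpa using hz) (Or.inr (by simpa using hw))
  let D : Set Ω := ⋃ z ∈ A ∩ Z, Iic (j z)
  have hD : D.Countable := (hA.mono inter_subset_left).biUnion fun z _ => hIic _
  have hDne : Dᶜ.Nonempty := by
    by_contra hn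
    rw [not_nonempty_iff_eq_empty, compl_empty_iff] at hn
    exact not_countable_univ (hn ▸ hD)
  obtain ⟨δ, hδ, hδmin⟩ := wellFounded_lt.has_min Dᶜ hDne
  have hTA : T δ ⊆ A := by
    rintro z (hz | ⟨hzZ, hz⟩)
    · exact hA0 hz
    · have : j z ∈ D := by
        by_contra hn
        exact hδmin _ hn hz
      obtain ⟨z', hz', hle⟩ := mem_iUnion₂.1 this
      exact hAc z' hz'.1 (Or.inr ⟨hzZ, hle⟩)
  have hAT : ∀ z ∈ A, z ∈ Z → z ∈ T δ := by
    intro z hz hzZ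
    refine Or.inr ⟨hzZ, ?_⟩
    by_contra hn
    exact hδ (mem_iUnion₂.2 ⟨z, ⟨hz, hzZ⟩, not_lt.1 hn⟩)
  refine ⟨δ, fun s hs => ?_⟩
  by_contra hne'
  set z := ρ δ s with hz
  have hzA : z ∈ A := hTA (hρ δ s).1
  obtain ⟨n, hn⟩ := exists_nat_one_div_lt (abs_pos.2 (sub_ne_zero.2 (Ne.symm hne')))
  obtain ⟨w, hw, hsw⟩ := mem_iUnion₂.1 (hcov2 _ (hEc z n) (⟨(hρ δ s).2, hn.le⟩ : s ∈ E z n))
  have hwE := hcov1 _ (hEc z n) w hw
  have hwz : w ≠ z := by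
    rintro rfl
    have := hwE.2
    simp only [mem_ofPred_eq, sub_self, abs_zero] at this
    exact absurd this (not_le.2 Nat.one_div_pos_of_nat)
  have hwlt : rk w < rk z := (hV z).2.2 w (hUV z hwE.1) hwz
  have hwA : w ∈ A := hAc z hzA (Or.inl (Or.inl (mem_iUnion.2 ⟨n, hw⟩)))
  obtain ⟨w', ⟨hw'A, hsw'⟩, hw'min⟩ := hmin {w | w ∈ A ∧ s ∈ U w} ⟨w, hwA, hsw⟩
  have hw'Z : w' ∈ Z := by
    by_contra hn'
    obtain ⟨m, hm⟩ := hGs w' hn' s hs
    have hc : IsClosed (U w' \ G w' m) := (hUc w').sdiff (hGo w' hn' m)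
    obtain ⟨w'', hw'', hsw''⟩ := mem_iUnion₂.1 (hcov2 _ hc (⟨hsw', hm⟩ : s ∈ U w' \ G w' m))
    have h1 := hcov1 _ hc w'' hw''
    have h2 : w'' ≠ w' := by
      rintro rfl
      exact h1.2 (hGz _ hn' m)
    exact hw'min w'' ⟨hAc w' hw'A (Or.inl (Or.inr (mem_iUnion.2 ⟨m, hw''⟩))), hsw''⟩
      ((hV w').2.2 w'' (hUV w' h1.1) h2)
  exact hρmin δ s w' ⟨hAT w' hw'A hw'Z, hsw'⟩
    ((not_lt.1 (hw'min w ⟨hwA, hsw⟩)).trans_lt hwlt)

end Pool.Agent.MP_b07c92_gt
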